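import Pool.Agent.Helper37.KD.DefsC
import Pool.Agent.Helper37.KD.St.A1
import Pool.Agent.Helper37.KD.St.A3
import Pool.Agent.Helper37.KD.St.C2

/-! KD Part I, piece C3 -/

namespace KD.I.C3

open Finset

section ker
variable {d N : ℕ} [NeZero N]

theorem n1_ee_le (i : Fin d) : n1 (ee i : V d N) ≤ 1 := by
  unfold n1 ee
  rw [Finset.sum_eq_single i]
  · rw [Pi.single_eq_same]
    have h := ZMod.natAbs_min_of_le_div_two N ((1 : ZMod N).valMinAbs) 1 (by simp)
      (ZMod.natAbs_valMinAbs_le _)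
    exact_mod_cast h
  · intro b _ hb
    rw [Pi.single_eq_of_ne hb]
    simp
  · intro h
    exact absurd (Finset.mem_univ i) h

omit [NeZero N] in
theorem n1_nonneg (x : V d N) : 0 ≤ n1 x := Finset.sum_nonneg fun _ _ => Nat.cast_nonneg _

omit [NeZero N] in
theorem n1_neg (x : V d N) : n1 (-x) = n1 x := by
  unfold n1
  refine Finset.sum_congr rfl fun i _ => ?_
  rw [Pi.neg_apply, ZMod.natAbs_valMinAbs_neg]

omit [NeZero N] in
theorem n1_zero : n1 (0 : V d N) = 0 := by
  unfold n1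
  simp

theorem nrm_xs_le {r R : ℝ} (hR : 0 < R) (i : Fin d) :
    nrm r R (xs (ee i) : GG d N) ≤ 1 / R := by
  unfold nrm xs
  simp only [n1_zero, zero_div, add_zero]
  exact div_le_div_of_nonneg_right (n1_ee_le i) hR.le

theorem exp_sub_le {x : ℝ} (h0 : 0 ≤ x) (h1 : x ≤ 1) : Real.exp x - Real.exp (-x) ≤ 3 * x := by
  have h2 := Real.abs_exp_sub_one_sub_id_le (x := x) (by rw [abs_of_nonneg h0]; exact h1)
  have h3 := (abs_le.1 h2).2
  have h4 := Real.add_one_le_exp (-x)
  nlinarith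

theorem ker_diff {r R C1 : ℝ} {q : GG d N → ℝ} (hq : Ker r R C1 q) (hR : 1 ≤ R) (i : Fin d)
    (w : GG d N) : |q (w + xs (ee i)) - q (w - xs (ee i))| ≤ 3 / R * q w := by
  have hR0 : 0 < R := by linarith
  set x : ℝ := 1 / R with hx
  have hx0 : 0 ≤ x := by positivity
  have hx1 : x ≤ 1 := by rw [hx, div_le_one hR0]; exact hR
  have hn : Real.exp (nrm r R (xs (ee i) : GG d N)) ≤ Real.exp x :=
    Real.exp_le_exp.2 (nrm_xs_le hR0 i)
  have up : ∀ z : GG d N, q (z + xs (ee i)) ≤ Real.exp x * q z := fun z =>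
    (hq.lip z (xs (ee i))).trans (mul_le_mul_of_nonneg_right hn (hq.pos z).le)
  have a1 : q (w + xs (ee i)) ≤ Real.exp x * q w := up w
  have a2 : q w ≤ Real.exp x * q (w - xs (ee i)) := by
    have := up (w - xs (ee i))
    rwa [sub_add_cancel] at this
  have hneg : nrm r R (-xs (ee i) : GG d N) = nrm r R (xs (ee i) : GG d N) := by
    unfold nrm
    rw [Prod.fst_neg, Prod.snd_neg, n1_neg, n1_neg]
  have dn : ∀ z : GG d N, q (z - xs (ee i)) ≤ Real.exp x * q z := fun z => by
    have := hq.lip z (-xs (ee i))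
    rw [hneg, ← sub_eq_add_neg] at this
    exact this.trans (mul_le_mul_of_nonneg_right hn (hq.pos z).le)
  have a3 : q (w - xs (ee i)) ≤ Real.exp x * q w := dn w
  have a4 : q w ≤ Real.exp x * q (w + xs (ee i)) := by
    have := dn (w + xs (ee i))
    rwa [add_sub_cancel_right] at this
  have hp := (hq.pos w).le
  have he : Real.exp (-x) * Real.exp x = 1 := by rw [← Real.exp_add]; simp
  have hen := Real.exp_pos (-x)
  have b2 : Real.exp (-x) * q w ≤ q (w - xs (ee i)) := by
    calc Real.exp (-x) * q w ≤ Real.exp (-x) * (Real.exp x * q (w - xs (ee i))) :=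
          mul_le_mul_of_nonneg_left a2 hen.le
      _ = q (w - xs (ee i)) := by rw [← mul_assoc, he, one_mul]
  have b4 : Real.exp (-x) * q w ≤ q (w + xs (ee i)) := by
    calc Real.exp (-x) * q w ≤ Real.exp (-x) * (Real.exp x * q (w + xs (ee i))) :=
          mul_le_mul_of_nonneg_left a4 hen.le
      _ = q (w + xs (ee i)) := by rw [← mul_assoc, he, one_mul]
  have hs := mul_le_mul_of_nonneg_right (exp_sub_le hx0 hx1) hp
  have h3 : 3 / R * q w = 3 * x * q w := by rw [hx]; ring
  rw [h3]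
  exact abs_le.2 ⟨by nlinarith, by nlinarith⟩

end ker

section env
variable {d : ℕ} {s c0 C0 C1 : ℝ} (E : Env d s c0 C0 C1)

theorem one_le_R (hs : 0 < s) (k : ℕ) : 1 ≤ E.R k := by
  unfold Env.R Rad
  have h1 := E.hM
  have h2 := E.hε
  have h3 := E.hε1
  have h4 := one_le_tim hs k
  have h5 : (1 : ℝ) ≤ 2 ^ k := one_le_pow₀ one_le_two
  have h6 : 1 ≤ E.M / E.ε := by
    rw [le_div_iff₀ h2]
    linarith
  calc (1 : ℝ) = 1 * 1 * 1 := by norm_num
    _ ≤ E.M / E.ε * 2 ^ k * tim s k := by gcongr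

/-- the difference kernel -/
noncomputable def dk (k : ℕ) (i : Fin d) : E.G → ℝ :=
  fun w => E.q k (w + xs (ee i)) - E.q k (w - xs (ee i))

theorem cv_diff (κ u : E.G → ℝ) (e : E.G) :
    (fun z => cv κ u (z + e) - cv κ u (z - e)) = cv (fun w => κ (w + e) - κ (w - e)) u := by
  funext z
  rw [sub_eq_add_neg z e, cv_shift_ker, cv_shift_ker]
  unfold cv
  rw [← Finset.sum_sub_distrib]
  refine Finset.sum_congr rfl fun w _ => ?_
  have h : w - e = w + -e := sub_eq_add_neg w e
  simp only [h]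
  ring

theorem sum_dk (hs : 0 < s) {k : ℕ} (hk : k ≤ E.K) (i : Fin d) :
    ∑ w, dk E k i w ^ 2 / E.q k w ≤ (3 / E.R k) ^ 2 := by
  have h1 : ∀ w, dk E k i w ^ 2 / E.q k w ≤ (3 / E.R k) ^ 2 * E.q k w := fun w => by
    have hp := E.q_pos hk w
    rw [div_le_iff₀ hp]
    have h := ker_diff (E.ker k hk) (one_le_R E hs k) i w
    have h2 : dk E k i w ^ 2 ≤ (3 / E.R k * E.q k w) ^ 2 := by
      rw [← sq_abs]
      exact pow_le_pow_left₀ (abs_nonneg _) h 2
    calc dk E k i w ^ 2 ≤ (3 / E.R k * E.q k w) ^ 2 := h2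
      _ = (3 / E.R k) ^ 2 * E.q k w * E.q k w := by ring
  calc ∑ w, dk E k i w ^ 2 / E.q k w ≤ ∑ w, (3 / E.R k) ^ 2 * E.q k w :=
        Finset.sum_le_sum fun w _ => h1 w
    _ = (3 / E.R k) ^ 2 := by rw [← Finset.mul_sum, E.q_mass hk, mul_one]

theorem Yk_nonneg (ν : E.G → ℝ) {j : ℕ} (hj : j ≤ E.K) : 0 ≤ E.Yk ν j := by
  unfold Env.Yk he
  refine Finset.sum_nonneg fun w _ => mul_nonneg (mul_nonneg (E.q_pos hj w).le (sq_nonneg _)) ?_
  exact Finset.sum_nonneg fun z _ => sq_nonneg _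

theorem mm_succ (ν : E.G → ℝ) {k j : ℕ} (hj : j ≤ k) (i : Fin d) :
    E.mm ν (k + 1) j i = cv (E.q (k + 1)) (E.mm ν k j i) := by
  unfold Env.mm
  have h1 : k + 1 - j = (k - j) + 1 := by omega
  rw [h1, lev_succ]
  have h2 : j + 1 + (k - j) = k + 1 := by omega
  rw [h2]

theorem mm_self (ν : E.G → ℝ) (k : ℕ) (i : Fin d) :
    E.mm ν k k i = cv (fun w : E.G => ((w.2 i).valMinAbs : ℝ) * E.q k w) (lev E.q ν k) := by
  unfold Env.mm
  rw [Nat.sub_self]
  rfl

/-- the flip of the `v`-component -/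
def flip : E.G ≃+ E.G := AddEquiv.prodCongr (AddEquiv.refl _) (AddEquiv.neg _)

theorem flip_apply (w : E.G) : flip E w = (w.1, -w.2) := rfl

end env

/-- x-differences of `m_{j,i}` -/
theorem mm_diff_bound (s c0 C0 C1 : ℝ) (d : ℕ) (hs : 0 < s) : ∃ C : ℝ, 0 < C ∧
    ∀ (E : Env d s c0 C0 C1) (ν : E.G → ℝ), IsP ν → ∀ k j : ℕ, j ≤ k → k ≤ E.K → ∀ i i' : Fin d,
      Qf (fun z => E.mm ν k j i (z + xs (ee i')) - E.mm ν k j i (z - xs (ee i'))) (lev E.q ν (k + 1))
        ≤ (C / E.R k) ^ 2 * E.Yk ν j := by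
  refine ⟨3, by norm_num, ?_⟩
  intro E ν hν k j hjk hk i i'
  rcases Nat.lt_or_ge j k with hlt | hge
  · obtain ⟨k, rfl⟩ : ∃ k', k = k' + 1 := ⟨k - 1, by omega⟩
    have hjk' : j ≤ k := by omega
    have hk' : k ≤ E.K := by omega
    rw [mm_succ E ν hjk' i, cv_diff, lev_succ]
    have h1 := Qf_cv_le (fun w => E.q (k + 1) (w + xs (ee i')) - E.q (k + 1) (w - xs (ee i')))
      (E.q (k + 1)) (E.mm ν k j i) (lev E.q ν (k + 1)) (E.q_pos hk)
      (fun z => (E.u_pos hν hk' z).le) (fun z hz => absurd hz (E.u_pos hν hk' z).ne')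
    refine h1.trans ?_
    refine mul_le_mul (sum_dk E hs hk i') (mm_bound E hν hjk' hk' i) ?_ (sq_nonneg _)
    unfold Qf
    exact Finset.sum_nonneg fun z _ => div_nonneg (sq_nonneg _) (E.u_pos hν hk' z).le
  · obtain rfl : j = k := le_antisymm hjk hge
    rw [mm_self, cv_diff, lev_succ]
    have h1 := Qf_antisym
      (fun w : E.G => (((w + xs (ee i')).2 i).valMinAbs : ℝ) * E.q j (w + xs (ee i')) -
        (((w - xs (ee i')).2 i).valMinAbs : ℝ) * E.q j (w - xs (ee i')))
      (E.q j) (lev E.q ν j) (fun w => 3 / E.R j * n1 w.2) (flip E)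
      (fun w => by simp [flip_apply]) (E.q_pos hk)
      (E.u_nonneg hν (by omega)) ?_ ?_ ?_ ?_ ?_
    · refine h1.trans (le_of_eq ?_)
      unfold Env.Yk
      rw [Finset.mul_sum]
      refine Finset.sum_congr rfl fun w _ => ?_
      have h2 : w - flip E w = vs (w.2 + w.2) := by
        rw [flip_apply]
        refine Prod.ext ?_ ?_
        · simp [vs]
        · simp [vs]
      rw [h2]
      ring
    · intro w
      have e1 : ∀ w : E.G, (w + xs (ee i')).2 = w.2 := fun w => by simp [xs]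
      have e2 : ∀ w : E.G, (w - xs (ee i')).2 = w.2 := fun w => by simp [xs]
      have e3 : flip E w + xs (ee i') = ((w + xs (ee i')).1, -(w + xs (ee i')).2) := by
        rw [flip_apply]
        refine Prod.ext ?_ ?_
        · simp
        · simp [xs]
      have e4 : flip E w - xs (ee i') = ((w - xs (ee i')).1, -(w - xs (ee i')).2) := by
        rw [flip_apply]
        refine Prod.ext ?_ ?_
        · simp
        · simp [xs]
      have e5 : ((flip E w).2 i).valMinAbs = -((w.2 i).valMinAbs) := by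
        rw [flip_apply]
        simp only [Pi.neg_apply]
        refine ZMod.valMinAbs_neg_of_ne_half fun hc => ?_
        have := E.hodd
        rw [← hc] at this
        exact (Nat.not_odd_iff_even.2 (even_two_mul _)) this
      have q1 : E.q j (flip E w + xs (ee i')) = E.q j (w + xs (ee i')) := by
        rw [e3]
        exact (E.ker j hk).symv _ _
      have q2 : E.q j (flip E w - xs (ee i')) = E.q j (w - xs (ee i')) := by
        rw [e4]
        exact (E.ker j hk).symv _ _
      simp only [e1, e2, q1, q2, e5]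
      push_cast
      ring
    · intro w
      exact (E.ker j hk).symv _ _
    · intro w
      exact mul_nonneg (div_nonneg (by norm_num) (E.R_pos j).le) (n1_nonneg _)
    · intro w
      simp only [flip_apply, n1_neg]
    · intro w
      have e1 : (w + xs (ee i')).2 = w.2 := by simp [xs]
      have e2 : (w - xs (ee i')).2 = w.2 := by simp [xs]
      simp only [e1, e2, ← mul_sub]
      rw [abs_mul]
      have h2 := ker_diff (E.ker j hk) (one_le_R E hs j) i' w
      have h3 : |((w.2 i).valMinAbs : ℝ)| ≤ n1 w.2 := by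
        unfold n1
        have h4 : |((w.2 i).valMinAbs : ℝ)| = ((w.2 i).valMinAbs.natAbs : ℝ) := by
          rw [← Int.cast_abs, Int.abs_eq_natAbs]
          simp
        rw [h4]
        exact Finset.single_le_sum (f := fun i => ((w.2 i).valMinAbs.natAbs : ℝ))
          (fun i _ => Nat.cast_nonneg _) (Finset.mem_univ i)
      calc |((w.2 i).valMinAbs : ℝ)| * |E.q j (w + xs (ee i')) - E.q j (w - xs (ee i'))|
          ≤ n1 w.2 * (3 / E.R j * E.q j w) :=
            mul_le_mul h3 h2 (abs_nonneg _) (n1_nonneg _)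
        _ = 3 / E.R j * n1 w.2 * E.q j w := by ring

end KD.I.C3
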